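import Pool.Agent.W416.HW.Example

set_option autoImplicit false
open TensorProduct PowerSeries

/-!
The module `M ⊗ M*` of the counterexample to the Huneke–Wiegand conjecture is reflexive (it is
isomorphic, by the evaluation, to a monomial ideal of the ring of a symmetric semigroup, and such
ideals are equal to their double duals), and the ring is Gorenstein in the sense of the frozen
statement `S02051`.
-/

namespace Pool.Agent.W657.AR

open Pool.Agent.W416.HW

noncomputable section

variable {G : ℕ → Prop} {φ x B : ℕ}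

/-- the tensor product -/
abbrev N (D : Data G φ x B) : Type := (M D) ⊗[R D] (Module.Dual (R D) (M D))

/-- the evaluation `m ⊗ ψ ↦ ψ m` -/
abbrev mu (D : Data G φ x B) : N D →ₗ[R D] R D := contractRight (R D) (M D)

/-- the evaluation is injective -/
theorem mu_ker (D : Data G φ x B) (z : N D) (hz : mu D z = 0) : z = 0 := by
  obtain ⟨α, β, rfl⟩ := two_term D z
  have h3 : (α (u0 D) : R D) + β (ux D) = 0 := by
    rw [map_add] at hz
    simpa [contractRight_apply] using hz
  have h4 : ((α (u0 D) : R D) : V) + ((β (ux D) : R D) : V) = 0 := congrArg Subtype.val h3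
  rw [dual_apply D β (ux D), ux_val] at h4
  have h5 : X ^ x * ((β (u0 D) : R D) : V) = -((α (u0 D) : R D) : V) := by
    linear_combination h4
  have hv : Sup (F2 G x) ((β (u0 D) : R D) : V) := by
    have e1 := dual_sup D β
    have e2 : Sup (F G x) (X ^ x * ((β (u0 D) : R D) : V)) := by
      rw [h5]; exact (dual_sup D α).neg
    intro n hn
    by_cases h6 : F G x n
    · have h7 := e2 (n + x) (fun h => hn ⟨h6.1, h6.2, by
        have : n + 2 * x = n + x + x := by ring
        rw [this]; exact h.2⟩)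
      rwa [coeff_X_pow_mul] at h7
    · exact e1 n h6
  have h8 := PQ D ⟨_, hv⟩
  have h9 : ux D ⊗ₜ[R D] β = PP D ⟨_, hv⟩ := by
    conv_lhs => rw [exists_dl D β]
    rfl
  have h10 : α + dl D (shift D ⟨_, hv⟩) = 0 := by
    apply LinearMap.ext
    intro m
    apply Subtype.ext
    change ((α m : R D) : V) + (X ^ x * ((β (u0 D) : R D) : V)) * (m : V) = 0
    rw [dual_apply D α m, h5]
    ring
  have h11 : QQ D ⟨_, hv⟩ = u0 D ⊗ₜ[R D] dl D (shift D ⟨_, hv⟩) := rfl
  rw [h9, h8, h11, ← tmul_add, h10, tmul_zero]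

theorem mu_inj (D : Data G φ x B) : Function.Injective (mu D) := by
  intro a b h
  have h1 : mu D (a + (-1 : R D) • b) = 0 := by
    rw [map_add, map_smul, h, smul_eq_mul]
    ring
  have h2 : (-1 : R D) • b + b = 0 := by
    have h3 : (-1 : R D) • b + (1 : R D) • b = 0 := by
      rw [← add_smul, neg_add_cancel, zero_smul]
    rwa [one_smul] at h3
  calc a = a + ((-1 : R D) • b + b) := by rw [h2, add_zero]
    _ = (a + (-1 : R D) • b) + b := by rw [add_assoc]
    _ = b := by rw [mu_ker D _ h1, zero_add]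

variable (G x) in
/-- the exponents of the image of the evaluation -/
def A (n : ℕ) : Prop := F G x n ∨ ∃ m, m + x = n ∧ F G x m

theorem A_add (D : Data G φ x B) (i j : ℕ) (hi : G i) (hj : A G x j) : A G x (i + j) := by
  rcases hj with ⟨h1, h2⟩ | ⟨m, rfl, h1, h2⟩
  · exact Or.inl ⟨D.add _ _ hi h1, by rw [add_assoc]; exact D.add _ _ hi h2⟩
  · exact Or.inr ⟨i + m, by ring, D.add _ _ hi h1, by rw [add_assoc]; exact D.add _ _ hi h2⟩

theorem mu_sup (D : Data G φ x B) (z : N D) : Sup (A G x) ((mu D z : R D) : V) := by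
  obtain ⟨α, β, rfl⟩ := two_term D z
  have h1 : ((mu D (u0 D ⊗ₜ[R D] α + ux D ⊗ₜ[R D] β) : R D) : V) =
      ((α (u0 D) : R D) : V) + ((β (ux D) : R D) : V) := by
    rw [map_add]
    rfl
  rw [h1, dual_apply D β (ux D), ux_val]
  refine Sup.add (Sup.mono (fun n h => Or.inl h) (dual_sup D α)) ?_
  exact Sup.X_mul (A := F G x) (C := A G x) x (fun n h => Or.inr ⟨n, rfl, h⟩) (dual_sup D β)

theorem mu_surj (D : Data G φ x B) (r : R D) (hr : Sup (A G x) (r : V)) :
    ∃ z : N D, mu D z = r := by
  classical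
  have hf1 : Sup (F G x) (pick (F G x) 0 (r : V)) := sup_pick _ _ _ _ (fun n h => h)
  have hf2 : Sup (F G x) (pick (fun n => ¬ F G x n ∧ A G x n) x (r : V)) := by
    refine sup_pick _ _ _ _ ?_
    rintro n ⟨h1, h2⟩
    rcases h2 with h2 | ⟨k, hk, hF⟩
    · exact absurd h2 h1
    · have : k = n := by omega
      rw [← this]; exact hF
  refine ⟨u0 D ⊗ₜ[R D] dl D ⟨_, hf1⟩ + ux D ⊗ₜ[R D] dl D ⟨_, hf2⟩, ?_⟩
  apply Subtype.ext
  have h1 : ((mu D (u0 D ⊗ₜ[R D] dl D ⟨_, hf1⟩ + ux D ⊗ₜ[R D] dl D ⟨_, hf2⟩) : R D) : V) =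
      pick (F G x) 0 (r : V) * 1 + pick (fun n => ¬ F G x n ∧ A G x n) x (r : V) * X ^ x := by
    rw [map_add]
    rfl
  rw [h1, mul_one, mul_comm]
  conv_lhs => rw [← one_mul (pick (F G x) 0 (r : V)), ← pow_zero (X : V)]
  ext n
  rw [map_add, coeff_pick, coeff_pick]
  by_cases h1 : F G x n
  · rw [if_pos ⟨Nat.zero_le _, h1⟩, if_neg (fun h => h.2.1 h1), add_zero]
  · rw [if_neg (fun h => h1 h.2), zero_add]
    by_cases h2 : A G x n
    · have hxn : x ≤ n := by
        rcases h2 with h2 | ⟨k, hk, -⟩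
        · exact absurd h2 h1
        · omega
      rw [if_pos ⟨hxn, h1, h2⟩]
    · rw [if_neg (fun h => h2 h.2.2)]
      exact (hr n h2).symm

/-- an element with nonzero evaluation -/
theorem exists_ne (D : Data G φ x B) : ∃ z : N D, mu D z ≠ 0 := by
  have hG : G (φ + 1) := D.big _ (by omega)
  obtain ⟨z, hz⟩ := mu_surj D (mono D (φ + 1) hG)
    (Sup.X_pow _ _ (Or.inl ⟨hG, D.big _ (by omega)⟩))
  exact ⟨z, by rw [hz]; exact mono_ne_zero D _ hG⟩

/-- the functional `X ^ z` times the evaluation -/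
def ps (D : Data G φ x B) (z : ℕ) (hz : ∀ a, A G x a → G (z + a)) : N D →ₗ[R D] R D where
  toFun w := ⟨X ^ z * ((mu D w : R D) : V),
    Sup.X_mul (A := A G x) (C := G) z (fun n h => by rw [add_comm]; exact hz n h) (mu_sup D w)⟩
  map_add' a b := by
    apply Subtype.ext
    change X ^ z * ((mu D (a + b) : R D) : V) = X ^ z * ((mu D a : R D) : V) +
      X ^ z * ((mu D b : R D) : V)
    rw [map_add]
    change X ^ z * (((mu D a : R D) : V) + ((mu D b : R D) : V)) = _
    ring
  map_smul' c a := by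
    apply Subtype.ext
    change X ^ z * ((mu D (c • a) : R D) : V) = (c : V) * (X ^ z * ((mu D a : R D) : V))
    rw [map_smul]
    change X ^ z * ((c : V) * ((mu D a : R D) : V)) = _
    ring

theorem ps_val (D : Data G φ x B) (z : ℕ) (hz : ∀ a, A G x a → G (z + a)) (w : N D) :
    ((ps D z hz w : R D) : V) = X ^ z * ((mu D w : R D) : V) := rfl

/-- values of the double dual on the evaluation -/
theorem bidual_sup (D : Data G φ x B)
    (Φ : Module.Dual (R D) (Module.Dual (R D) (N D))) : Sup (A G x) ((Φ (mu D) : R D) : V) := by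
  intro n hn
  have hnφ : n ≤ φ := by
    by_contra h
    exact hn (Or.inl ⟨D.big _ (by omega), D.big _ (by omega)⟩)
  have hz : ∀ a, A G x a → G (φ - n + a) := by
    intro a ha
    by_contra h
    have h1 : φ - n + a ≤ φ := by
      by_contra h2
      exact h (D.big _ (by omega))
    have h2 : G (φ - (φ - n + a)) := by
      by_contra h3
      exact h ((D.symm _ h1).2 h3)
    have h3 : φ - (φ - n + a) = n - a := by omega
    rw [h3] at h2
    have h4 := A_add D _ _ h2 ha
    have h5 : n - a + a = n := by omega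
    rw [h5] at h4
    exact hn h4
  obtain ⟨w, hw⟩ := exists_ne D
  have e1 : (mu D w) • ps D (φ - n) hz = (ps D (φ - n) hz w) • mu D := by
    apply LinearMap.ext
    intro v
    apply Subtype.ext
    change ((mu D w : R D) : V) * (X ^ (φ - n) * ((mu D v : R D) : V)) =
      (X ^ (φ - n) * ((mu D w : R D) : V)) * ((mu D v : R D) : V)
    ring
  have e2 := congrArg Φ e1
  rw [map_smul, map_smul] at e2
  have e3 : ((mu D w : R D) : V) * ((Φ (ps D (φ - n) hz) : R D) : V) =
      (X ^ (φ - n) * ((mu D w : R D) : V)) * ((Φ (mu D) : R D) : V) := congrArg Subtype.val e2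
  have hw' : ((mu D w : R D) : V) ≠ 0 := fun h => hw (Subtype.ext h)
  have e4 : ((Φ (ps D (φ - n) hz) : R D) : V) = X ^ (φ - n) * ((Φ (mu D) : R D) : V) := by
    apply mul_left_cancel₀ hw'
    rw [e3]
    ring
  have e5 := (Φ (ps D (φ - n) hz)).2 φ D.frob
  rw [e4, coeff_X_pow_mul', if_pos (by omega)] at e5
  have e6 : φ - (φ - n) = n := by omega
  rw [e6] at e5
  exact e5

/-- `M ⊗ M*` is reflexive. -/
theorem reflexive (D : Data G φ x B) : Module.IsReflexive (R D) (N D) := by
  constructor
  constructor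
  · intro a b hab
    apply mu_inj D
    exact congrArg (fun Φ => Φ (mu D)) hab
  · intro Φ
    obtain ⟨z, hz⟩ := mu_surj D (Φ (mu D)) (bidual_sup D Φ)
    refine ⟨z, ?_⟩
    apply LinearMap.ext
    intro ψ
    change ψ z = Φ ψ
    obtain ⟨w, hw⟩ := exists_ne D
    have e1 : (mu D w) • ψ = (ψ w) • mu D := by
      apply LinearMap.ext
      intro v
      change mu D w * ψ v = ψ w * mu D v
      have h1 : (mu D w) • v = (mu D v) • w := by
        apply mu_inj D
        rw [map_smul, map_smul, smul_eq_mul, smul_eq_mul, mul_comm]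
      have h2 := congrArg ψ h1
      rw [map_smul, map_smul, smul_eq_mul, smul_eq_mul] at h2
      rw [h2, mul_comm]
    have e2 := congrArg Φ e1
    rw [map_smul, map_smul, smul_eq_mul, smul_eq_mul, ← hz] at e2
    have e3 := congrArg (fun f : Module.Dual (R D) (N D) => f z) e1
    have e4 : mu D w * ψ z = ψ w * mu D z := e3
    apply mul_left_cancel₀ hw
    rw [e4, e2]

/-- the ring is Gorenstein: some regular sequence of length the dimension generates an irreducible
ideal -/
theorem gor (D : Data G φ x B) :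
    ∃ xs : List (R D), (∀ x ∈ xs, x ∈ IsLocalRing.maximalIdeal (R D)) ∧
      RingTheory.Sequence.IsRegular (R D) xs ∧
      ((xs.length : ℕ∞) : WithBot ℕ∞) = ringKrullDim (R D) ∧
      InfIrred (Ideal.span {r : R D | r ∈ xs}) := by
  obtain ⟨y, hy, hy0, hirr⟩ := infIrred D
  refine ⟨[y], ?_, ?_, ?_, ?_⟩
  · intro z hz
    rw [List.mem_singleton] at hz
    rw [hz]; exact hy
  · refine ⟨?_, ?_⟩
    · rw [RingTheory.Sequence.isWeaklyRegular_singleton_iff]
      intro a b hab
      exact mul_left_cancel₀ hy0 hab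
    · intro h
      have h1 : Ideal.ofList [y] ≤ IsLocalRing.maximalIdeal (R D) := by
        rw [Ideal.ofList_singleton, Ideal.span_singleton_le_iff_mem]
        exact hy
      have h2 : (1 : R D) ∈ Ideal.ofList [y] • (⊤ : Submodule (R D) (R D)) := by
        rw [← h]; exact Submodule.mem_top
      have h3 : (1 : R D) ∈ IsLocalRing.maximalIdeal (R D) := by
        apply h1
        rw [smul_eq_mul, Ideal.mul_top] at h2
        exact h2
      exact (IsLocalRing.maximalIdeal.isMaximal (R D)).ne_top ((Ideal.eq_top_iff_one _).2 h3)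
  · rw [dim_one D]
    rfl
  · have : {r : R D | r ∈ [y]} = {y} := by
      ext r
      simp
    rw [this]
    exact hirr

end

end Pool.Agent.W657.AR
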